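import Pool.Agent.Q139.Jet.Final

/-!
# MP_5de00f_gt (Q1), negated form

`X = Y = ℝ`, `p = 1`, `r = 2`.  There is an embedded `C²` surface `A` in
`J¹(ℝ,ℝ) = {(x, y, v)}` whose non-transversality set `Ã ⊆ J²(ℝ,ℝ) = {(x, y, v, w)}` is not the
union of countably many embedded `C¹` submanifolds, whatever their dimensions (in particular not
when all codimensions are required to be `> 1`).

The surface is `y = Φ(x) + v²/2`, where `Φ' = k` and `k` is a `C¹` function that vanishes exactly
on a Cantor set (inside its convex hull) and equals `((x-a)(b-x))²` on each of its gaps `(a,b)`;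
over it `Ã` is given by `v(1-w) = k(x)`.  A Baire argument forces one `C¹` piece through a relatively
open part of the Cantor set, and that piece would contain a curve on which `v(1-w) = o(t²)` while
`k ≥ c t²`.
-/

open Set Filter Topology Pool.Agent.Q139.Jet

namespace Pool.Agent.Results.MP_5de00f_gt.NotCountableUnion

theorem result : ∃ A : Set J1, IsSubmanifold 2 2 A ∧
    ¬ ∃ (S : ℕ → Set J2) (d : ℕ → ℕ), (∀ i, IsSubmanifold 1 (d i) (S i)) ∧
      ⋃ i, S i = tilde A := by
  obtain ⟨K, hK, hne, hsub, hnd⟩ := exists_K
  refine ⟨surf K, isSubmanifold_surf hK.closed hne hsub, ?_⟩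
  rintro ⟨S, d, hS, hU⟩
  exact not_union hK.closed hne hsub hK.acc hnd S d hS hU

end Pool.Agent.Results.MP_5de00f_gt.NotCountableUnion
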